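import Pool.Agent.Q152.CC.Stm3

/-! # Project CC of helper152: job FN3, intervals, twists and high moments -/

set_option autoImplicit false

namespace Pool.Agent.Q129.CC.Fn3

open Finset Pool.Agent.Y692.QS Pool.Agent.Q152.CC

noncomputable section

/-- the final estimate of the number of exceptions -/
theorem est {k : ℕ} {θ τ δ c η C₀ : ℝ} (hθ : 1 ≤ θ)
    (hη0 : 0 < η) (hη : 2 * k * θ * η = k + 1 - (c + θ + 2 * τ + 2 * (k + 1) * δ)) (hC₀ : 0 < C₀)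
    {P h R N g : ℕ} {X : ℝ} (hX : 1 ≤ X) (hRX : (R : ℝ) ≤ X ^ θ) (hNX : (N : ℝ) ≤ X)
    (hXP : X ^ ((2 * θ + 1) * k) ≤ P) (hg : X ^ (1 - δ) / 2 ≤ g) (hh : (h : ℝ) ^ 2 ≤ 4 * P) :
    X ^ (2 * τ) * (C₀ * R * N * ((h : ℝ) ^ 2 * ((R : ℝ) ^ η * N) ^ k +
      (R : ℝ) ^ (2 * k * (1 + η)) * (N : ℝ) ^ (2 * k)) / (g : ℝ) ^ (2 * k + 2)) ≤
    5 * 4 ^ (k + 1) * C₀ * (P / X ^ c) := by
  have hX0 : 0 < X := by linarith
  have hP0 : (0 : ℝ) ≤ P := Nat.cast_nonneg _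
  have hR0 : (0 : ℝ) ≤ R := Nat.cast_nonneg _
  have hN0 : (0 : ℝ) ≤ N := Nat.cast_nonneg _
  have hk0 : (0 : ℝ) ≤ k := Nat.cast_nonneg _
  have hpos : ∀ e : ℝ, 0 < X ^ e := fun e => Real.rpow_pos_of_pos hX0 e
  -- the lower bound of the denominator
  have hg1 : X ^ ((1 - δ) * (2 * k + 2)) / 4 ^ (k + 1) ≤ (g : ℝ) ^ (2 * k + 2) := by
    have h1 : (X ^ (1 - δ) / 2) ^ (2 * k + 2) ≤ (g : ℝ) ^ (2 * k + 2) :=
      pow_le_pow_left₀ (by have := hpos (1 - δ); positivity) hg _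
    refine le_trans (le_of_eq ?_) h1
    rw [div_pow, ← Real.rpow_natCast (X ^ (1 - δ)), ← Real.rpow_mul hX0.le]
    congr 1
    · congr 1
      push_cast
      ring
    · rw [show 2 * k + 2 = 2 * (k + 1) by ring, pow_mul]
      norm_num
  have hgpos : 0 < X ^ ((1 - δ) * (2 * k + 2)) / 4 ^ (k + 1) := by
    have := hpos ((1 - δ) * (2 * k + 2))
    positivity
  -- the numerator
  have h2 : ((R : ℝ) ^ η * N) ^ k ≤ X ^ ((θ * η + 1) * k) := by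
    have h3 : (R : ℝ) ^ η * N ≤ X ^ (θ * η + 1) := by
      rw [Real.rpow_add hX0, Real.rpow_one, Real.rpow_mul hX0.le]
      exact mul_le_mul (Real.rpow_le_rpow hR0 hRX hη0.le) hNX hN0 (by have := hpos θ; positivity)
    have h4 : ((R : ℝ) ^ η * N) ^ k ≤ (X ^ (θ * η + 1)) ^ k := pow_le_pow_left₀ (by positivity) h3 _
    refine h4.trans (le_of_eq ?_)
    rw [← Real.rpow_natCast, ← Real.rpow_mul hX0.le]
  have h3 : (R : ℝ) ^ (2 * k * (1 + η)) ≤ X ^ (θ * (2 * k * (1 + η))) := by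
    rw [Real.rpow_mul hX0.le]
    exact Real.rpow_le_rpow hR0 hRX (by positivity)
  have h4 : (N : ℝ) ^ (2 * k) ≤ X ^ (2 * k : ℝ) := by
    have h5 : (N : ℝ) ^ (2 * k) ≤ X ^ (2 * k) := pow_le_pow_left₀ hN0 hNX _
    refine h5.trans (le_of_eq ?_)
    rw [← Real.rpow_natCast]
    congr 1
    push_cast
    ring
  have h5 : (h : ℝ) ^ 2 * ((R : ℝ) ^ η * N) ^ k + (R : ℝ) ^ (2 * k * (1 + η)) * (N : ℝ) ^ (2 * k) ≤
      4 * P * X ^ ((θ * η + 1) * k) + X ^ (θ * (2 * k * (1 + η)) + 2 * k) := by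
    rw [Real.rpow_add hX0]
    have h6 : 0 ≤ ((R : ℝ) ^ η * N) ^ k := by positivity
    have h7 : (0 : ℝ) ≤ (N : ℝ) ^ (2 * k) := by positivity
    exact add_le_add (mul_le_mul hh h2 h6 (by positivity)) (mul_le_mul h3 h4 h7 (hpos _).le)
  have h6 : C₀ * R * N ≤ C₀ * X ^ (θ + 1) := by
    rw [Real.rpow_add hX0, Real.rpow_one, mul_assoc]
    exact mul_le_mul_of_nonneg_left (mul_le_mul hRX hNX hN0 (hpos _).le) hC₀.le
  have h7 : C₀ * R * N * ((h : ℝ) ^ 2 * ((R : ℝ) ^ η * N) ^ k +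
      (R : ℝ) ^ (2 * k * (1 + η)) * (N : ℝ) ^ (2 * k)) / (g : ℝ) ^ (2 * k + 2) ≤
      C₀ * X ^ (θ + 1) * (4 * P * X ^ ((θ * η + 1) * k) + X ^ (θ * (2 * k * (1 + η)) + 2 * k)) /
        (X ^ ((1 - δ) * (2 * k + 2)) / 4 ^ (k + 1)) := by
    have h8 : 0 ≤ (h : ℝ) ^ 2 * ((R : ℝ) ^ η * N) ^ k +
        (R : ℝ) ^ (2 * k * (1 + η)) * (N : ℝ) ^ (2 * k) := by positivity
    have h9 := hpos (θ + 1)
    have h10 := hpos ((θ * η + 1) * k)
    have h11 := hpos (θ * (2 * k * (1 + η)) + 2 * k)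
    refine div_le_div₀ (by positivity) ?_ hgpos hg1
    exact mul_le_mul h6 h5 h8 (by positivity)
  refine (mul_le_mul_of_nonneg_left h7 (hpos _).le).trans ?_
  -- the exponents
  have hdiv : ∀ a : ℝ, a / (X ^ ((1 - δ) * (2 * k + 2)) / 4 ^ (k + 1)) =
      a * X ^ (-((1 - δ) * (2 * k + 2))) * 4 ^ (k + 1) := by
    intro a
    rw [Real.rpow_neg hX0.le]
    have := (hpos ((1 - δ) * (2 * k + 2))).ne'
    field_simp
  have e1 : X ^ (2 * τ) * X ^ (θ + 1) * X ^ ((θ * η + 1) * k) * X ^ (-((1 - δ) * (2 * k + 2))) ≤ X ^ (-c) := by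
    rw [← Real.rpow_add hX0, ← Real.rpow_add hX0, ← Real.rpow_add hX0]
    apply Real.rpow_le_rpow_of_exponent_le hX
    have h8 : 0 ≤ (k : ℝ) * θ * η := by positivity
    nlinarith
  have e2 : X ^ (2 * τ) * X ^ (θ + 1) * X ^ (θ * (2 * k * (1 + η)) + 2 * k) *
      X ^ (-((1 - δ) * (2 * k + 2))) ≤ P * X ^ (-c) := by
    have h8 : X ^ (2 * τ) * X ^ (θ + 1) * X ^ (θ * (2 * k * (1 + η)) + 2 * k) *
        X ^ (-((1 - δ) * (2 * k + 2))) ≤ X ^ ((2 * θ + 1) * k) * X ^ (-c) := by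
      rw [← Real.rpow_add hX0, ← Real.rpow_add hX0, ← Real.rpow_add hX0, ← Real.rpow_add hX0]
      apply Real.rpow_le_rpow_of_exponent_le hX
      nlinarith
    exact h8.trans (mul_le_mul_of_nonneg_right hXP (hpos _).le)
  rw [hdiv]
  have h12 : (P : ℝ) / X ^ c = P * X ^ (-c) := by
    rw [Real.rpow_neg hX0.le, div_eq_mul_inv]
  rw [h12]
  calc X ^ (2 * τ) * (C₀ * X ^ (θ + 1) * (4 * P * X ^ ((θ * η + 1) * k) +
        X ^ (θ * (2 * k * (1 + η)) + 2 * k)) * X ^ (-((1 - δ) * (2 * k + 2))) * 4 ^ (k + 1))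
      = 4 ^ (k + 1) * C₀ * (4 * P * (X ^ (2 * τ) * X ^ (θ + 1) * X ^ ((θ * η + 1) * k) *
          X ^ (-((1 - δ) * (2 * k + 2)))) +
        X ^ (2 * τ) * X ^ (θ + 1) * X ^ (θ * (2 * k * (1 + η)) + 2 * k) *
          X ^ (-((1 - δ) * (2 * k + 2)))) := by ring
    _ ≤ 4 ^ (k + 1) * C₀ * (4 * P * X ^ (-c) + P * X ^ (-c)) := by
        apply mul_le_mul_of_nonneg_left _ (by positivity)
        exact add_le_add (mul_le_mul_of_nonneg_left e1 (by positivity)) e2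
    _ = _ := by ring

/-- the number of characters of a modulus -/
theorem card_chars (q : ℕ) (hq : 1 ≤ q) : Nat.card (DirichletCharacter ℂ q) ≤ q := by
  have : NeZero q := ⟨by omega⟩
  rw [DirichletCharacter.card_eq_totient_of_hasEnoughRootsOfUnity]
  exact Nat.totient_le q

theorem fn3 (ex3 : S_EX3) (cnt : S_CNT) : S_FN3 := by
  classical
  intro k θ τ δ c hk hθ hτ hδ hc hgap
  have hk0 : (0 : ℝ) < k := by exact_mod_cast hk
  obtain ⟨η, hη⟩ : ∃ η : ℝ, 2 * k * θ * η = k + 1 - (c + θ + 2 * τ + 2 * (k + 1) * δ) :=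
    ⟨(k + 1 - (c + θ + 2 * τ + 2 * (k + 1) * δ)) / (2 * k * θ), by
      have : 2 * k * θ ≠ 0 := by positivity
      field_simp⟩
  have hη0 : 0 < η := by
    have h1 : 0 < 2 * k * θ * η := by rw [hη]; linarith
    have h2 : 0 < 2 * k * θ := by positivity
    by_contra h3
    have h4 : 2 * k * θ * η ≤ 0 := mul_nonpos_of_nonneg_of_nonpos h2.le (not_lt.1 h3)
    linarith
  have hδ1 : δ ≤ 1 := by
    have h1 : 0 < (k : ℝ) * δ := by positivity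
    have h2 : 0 ≤ (k : ℝ) * (1 - δ) ∨ (k : ℝ) * (1 - δ) < 0 := le_or_gt _ _
    by_contra h3
    have h4 : 0 < (k : ℝ) * (δ - 1) := mul_pos hk0 (by linarith [not_le.1 h3])
    nlinarith
  obtain ⟨C₀, hC₀, hex⟩ := ex3 k η hk hη0
  have hfin : ∀ q : ℕ, Fintype (DirichletCharacter ℂ q) := fun q => by
    by_cases hq : q = 0
    · subst hq
      exact Fintype.ofFinite _
    · have : NeZero q := ⟨hq⟩
      exact Fintype.ofFinite _
  obtain ⟨K, hK⟩ : ∃ K : ℕ, K = Fintype.card (DirichletCharacter ℂ 1) + Fintype.card (DirichletCharacter ℂ 9) :=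
    ⟨_, rfl⟩
  obtain ⟨C, hC⟩ : ∃ C : ℝ, C = 6 + 35 * 4 ^ (k + 1) * K * C₀ := ⟨_, rfl⟩
  have hC0 : 0 < C := by
    rw [hC]
    positivity
  refine ⟨C, hC0, ?_⟩
  intro P X hX hXP
  have hX0 : 0 < X := by linarith
  have hP1 : 1 ≤ P := by
    have h1 : (1 : ℝ) ≤ X ^ ((2 * θ + 1) * k) := Real.one_le_rpow hX (by positivity)
    exact_mod_cast h1.trans hXP
  obtain ⟨N₀, hN₀⟩ : ∃ N₀ : ℕ, N₀ = ⌊X⌋₊ := ⟨_, rfl⟩
  have hN1 : 1 ≤ N₀ := by
    rw [hN₀]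
    exact Nat.le_floor (by exact_mod_cast hX)
  have hNX : (N₀ : ℝ) ≤ X := by
    rw [hN₀]
    exact Nat.floor_le (by linarith)
  have hN1' : (1 : ℝ) ≤ N₀ := by exact_mod_cast hN1
  have hXN : X / 2 ≤ N₀ := by
    have h1 := Nat.lt_floor_add_one X
    rw [← hN₀] at h1
    linarith
  obtain ⟨R, hR⟩ : ∃ R : ℕ, R = ⌊X ^ θ⌋₊ := ⟨_, rfl⟩
  have hRX : (R : ℝ) ≤ X ^ θ := by
    rw [hR]
    exact Nat.floor_le (by positivity)
  have hNR : N₀ ≤ R := by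
    rw [hR, hN₀]
    apply Nat.floor_le_floor
    have h1 := Real.rpow_le_rpow_of_exponent_le hX hθ
    rwa [Real.rpow_one] at h1
  obtain ⟨Q, hQ⟩ : ∃ Q : ℕ, Q = ⌊X ^ τ⌋₊ := ⟨_, rfl⟩
  have hQX : (Q : ℝ) ≤ X ^ τ := by
    rw [hQ]
    exact Nat.floor_le (by positivity)
  obtain ⟨g, hg⟩ : ∃ g : ℕ, g = ⌈(N₀ : ℝ) ^ (1 - δ)⌉₊ := ⟨_, rfl⟩
  have hNδ1 : 1 ≤ (N₀ : ℝ) ^ (1 - δ) := Real.one_le_rpow hN1' (by linarith)
  have hg1 : 1 ≤ g := by
    rw [hg]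
    exact Nat.one_le_ceil_iff.2 (by linarith)
  have hgN : g ≤ N₀ := by
    rw [hg, Nat.ceil_le]
    have h1 := Real.rpow_le_rpow_of_exponent_le hN1' (show 1 - δ ≤ (1 : ℝ) by linarith)
    rwa [Real.rpow_one] at h1
  have hg2 : X ^ (1 - δ) / 2 ≤ g := by
    have h1 : (N₀ : ℝ) ^ (1 - δ) ≤ g := by
      rw [hg]
      exact Nat.le_ceil _
    have h2 : (X / 2) ^ (1 - δ) ≤ (N₀ : ℝ) ^ (1 - δ) :=
      Real.rpow_le_rpow (by positivity) hXN (by linarith)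
    have h3 : X ^ (1 - δ) / 2 ≤ (X / 2) ^ (1 - δ) := by
      rw [Real.div_rpow hX0.le (by norm_num)]
      have h4 : (2 : ℝ) ^ (1 - δ) ≤ 2 := by
        have h5 := Real.rpow_le_rpow_of_exponent_le (by norm_num : (1 : ℝ) ≤ 2) (show 1 - δ ≤ 1 by linarith)
        rwa [Real.rpow_one] at h5
      exact div_le_div_of_nonneg_left (by positivity) (by positivity) h4
    linarith
  have hg3 : 3 * (g : ℝ) ≤ C * X ^ (1 - δ) := by
    have h1 : (g : ℝ) < (N₀ : ℝ) ^ (1 - δ) + 1 := by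
      rw [hg]
      exact Nat.ceil_lt_add_one (by linarith)
    have h2 : (N₀ : ℝ) ^ (1 - δ) ≤ X ^ (1 - δ) := Real.rpow_le_rpow (by linarith) hNX (by linarith)
    have h3 : 6 ≤ C := by
      rw [hC]
      have : 0 ≤ 35 * 4 ^ (k + 1) * (K : ℝ) * C₀ := by positivity
      linarith
    have h4 : 6 * X ^ (1 - δ) ≤ C * X ^ (1 - δ) := mul_le_mul_of_nonneg_right h3 (by linarith)
    linarith
  obtain ⟨h, hh⟩ : ∃ h : ℕ, h = Nat.sqrt P + 1 := ⟨_, rfl⟩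
  have hh1 : 1 ≤ h := by omega
  have hh2 : (h : ℝ) ^ 2 ≤ 4 * P := by
    have h1 : 1 ≤ Nat.sqrt P := Nat.sqrt_pos.2 hP1
    have h2 : Nat.sqrt P * Nat.sqrt P ≤ P := Nat.sqrt_le P
    have h3 : h ^ 2 ≤ 4 * P := by
      rw [hh]
      nlinarith
    exact_mod_cast h3
  -- the property of functions
  obtain ⟨Bad, hBad⟩ : ∃ Bad : (ℕ → ℂ) → Prop, ∀ f, Bad f ↔
      ∃ (q : ℕ) (ψ : DirichletCharacter ℂ q) (M N : ℕ), 1 ≤ q ∧ (q : ℝ) ≤ X ^ τ ∧
        (N : ℝ) ≤ X ∧ ((M + N : ℕ) : ℝ) ≤ X ^ θ ∧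
        C * X ^ (1 - δ) < ‖∑ a ∈ Ioc M (M + N), f a * ψ (a : ZMod q)‖ := ⟨fun f => _, fun _ => Iff.rfl⟩
  obtain ⟨-, h1⟩ := cnt P Bad (by
    intro f f' hf
    rw [hBad, hBad]
    refine exists_congr fun q => exists_congr fun ψ => exists_congr fun M => exists_congr fun N => ?_
    rw [sum_congr rfl fun a ha => show f a * ψ (a : ZMod q) = f' a * ψ (a : ZMod q) by
      rw [hf a (by rw [mem_Ioc] at ha; omega)]])
  have h2 : {χ ∈ family P | ∃ (q : ℕ) (ψ : DirichletCharacter ℂ q) (M N : ℕ), 1 ≤ q ∧ (q : ℝ) ≤ X ^ τ ∧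
      (N : ℝ) ≤ X ∧ ((M + N : ℕ) : ℝ) ≤ X ^ θ ∧
      C * X ^ (1 - δ) < ‖∑ a ∈ Ioc M (M + N), χ.2 (a : ZMod χ.1) * ψ (a : ZMod q)‖} =
      {χ ∈ family P | Bad fun n => χ.2 (n : ZMod χ.1)} := by
    ext χ
    simp only [Set.mem_ofPred_eq, hBad]
  rw [h2]
  refine h1.trans ?_
  -- one pair of characters
  obtain ⟨E, hE⟩ : ∃ E : ℝ, E = C₀ * R * N₀ * ((h : ℝ) ^ 2 * ((R : ℝ) ^ η * N₀) ^ k +
      (R : ℝ) ^ (2 * k * (1 + η)) * (N₀ : ℝ) ^ (2 * k)) / (g : ℝ) ^ (2 * k + 2) :=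
    ⟨_, rfl⟩
  have hE0 : 0 ≤ E := by
    rw [hE]
    positivity
  obtain ⟨F, hF⟩ : ∃ F : (ℕ → ℂ) → Finset (ℕ × ℕ), ∀ c, F c =
      ((range (2 * h)) ×ˢ (range (2 * h))).filter fun t : ℕ × ℕ => ∃ M N : ℕ, M + N ≤ R ∧ N ≤ N₀ ∧
        3 * (g : ℝ) < ‖∑ n ∈ Ioc M (M + N), c n * xi (al (-(h : ℤ) + t.1) (-(h : ℤ) + t.2)) n‖ :=
    ⟨fun c => _, fun _ => rfl⟩
  have hFE : ∀ c : ℕ → ℂ, (∀ n, ‖c n‖ ≤ 1) → ((F c).card : ℝ) ≤ E := by
    intro c hc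
    rw [hE, hF]
    exact hex h R N₀ g hh1 hg1 hgN hNR c hc
  obtain ⟨U, hU⟩ : ∃ U : ∀ d : ℕ, DirichletCharacter ℂ d → Finset (ℕ × ℕ), ∀ d ψ₀, U d ψ₀ =
      (Icc 1 Q).biUnion fun q => (@univ _ (hfin q)).biUnion fun ψ : DirichletCharacter ℂ q =>
        F fun n => ψ₀ (n : ZMod d) * ψ (n : ZMod q) := ⟨fun d ψ₀ => _, fun _ _ => rfl⟩
  have hUE : ∀ (d : ℕ) (ψ₀ : DirichletCharacter ℂ d), ((U d ψ₀).card : ℝ) ≤ X ^ (2 * τ) * E := by
    intro d ψ₀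
    rw [hU]
    have h3 : ((((Icc 1 Q).biUnion fun q => (@univ _ (hfin q)).biUnion fun ψ : DirichletCharacter ℂ q =>
        F fun n => ψ₀ (n : ZMod d) * ψ (n : ZMod q)).card : ℕ) : ℝ) ≤
        ∑ q ∈ Icc 1 Q, ∑ ψ ∈ (@univ (DirichletCharacter ℂ q) (hfin q)),
          ((F fun n => ψ₀ (n : ZMod d) * ψ (n : ZMod q)).card : ℝ) := by
      have h4 := card_biUnion_le (s := Icc 1 Q) (t := fun q => (@univ _ (hfin q)).biUnion
        fun ψ : DirichletCharacter ℂ q => F fun n => ψ₀ (n : ZMod d) * ψ (n : ZMod q))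
      have h5 : ∑ q ∈ Icc 1 Q, ((@univ _ (hfin q)).biUnion
          fun ψ : DirichletCharacter ℂ q => F fun n => ψ₀ (n : ZMod d) * ψ (n : ZMod q)).card ≤
          ∑ q ∈ Icc 1 Q, ∑ ψ ∈ (@univ (DirichletCharacter ℂ q) (hfin q)),
            (F fun n => ψ₀ (n : ZMod d) * ψ (n : ZMod q)).card :=
        sum_le_sum fun q _ => card_biUnion_le
      exact_mod_cast h4.trans h5
    refine h3.trans ?_
    have h4 : ∀ q ∈ Icc 1 Q, ∑ ψ ∈ (@univ (DirichletCharacter ℂ q) (hfin q)),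
        ((F fun n => ψ₀ (n : ZMod d) * ψ (n : ZMod q)).card : ℝ) ≤ Q * E := by
      intro q hq
      rw [mem_Icc] at hq
      have h5 : ∀ ψ ∈ (@univ (DirichletCharacter ℂ q) (hfin q)),
          ((F fun n => ψ₀ (n : ZMod d) * ψ (n : ZMod q)).card : ℝ) ≤ E := by
        intro ψ _
        apply hFE
        intro n
        rw [norm_mul]
        exact mul_le_one₀ (DirichletCharacter.norm_le_one ψ₀ _) (norm_nonneg _)
          (DirichletCharacter.norm_le_one ψ _)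
      refine (sum_le_sum h5).trans ?_
      rw [sum_const, nsmul_eq_mul]
      apply mul_le_mul_of_nonneg_right _ hE0
      have h6 := card_chars q hq.1
      rw [@Nat.card_eq_fintype_card _ (hfin q)] at h6
      exact_mod_cast h6.trans hq.2
    refine (sum_le_sum h4).trans ?_
    rw [sum_const, nsmul_eq_mul, Nat.card_Icc, Nat.add_sub_cancel, ← mul_assoc]
    apply mul_le_mul_of_nonneg_right _ hE0
    rw [two_mul, Real.rpow_add hX0]
    exact mul_le_mul hQX hQX (Nat.cast_nonneg _) (by positivity)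
  have hcard : (((((range (2 * (Nat.sqrt P + 1))) ×ˢ (range (2 * (Nat.sqrt P + 1)))).filter fun t : ℕ × ℕ =>
      ∃ (d : ℕ) (ψ : DirichletCharacter ℂ d), (d = 1 ∨ d = 9) ∧ Bad fun n =>
        xi (al (-((Nat.sqrt P : ℤ) + 1) + t.1) (-((Nat.sqrt P : ℤ) + 1) + t.2)) n *
          ψ (n : ZMod d)).card : ℕ) : ℝ) ≤ K * (X ^ (2 * τ) * E) := by
    have h3 : (((range (2 * (Nat.sqrt P + 1))) ×ˢ (range (2 * (Nat.sqrt P + 1)))).filter fun t : ℕ × ℕ =>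
        ∃ (d : ℕ) (ψ : DirichletCharacter ℂ d), (d = 1 ∨ d = 9) ∧ Bad fun n =>
          xi (al (-((Nat.sqrt P : ℤ) + 1) + t.1) (-((Nat.sqrt P : ℤ) + 1) + t.2)) n *
            ψ (n : ZMod d)) ⊆
        (univ : Finset (DirichletCharacter ℂ 1)).biUnion (fun ψ => U 1 ψ) ∪
          (univ : Finset (DirichletCharacter ℂ 9)).biUnion (fun ψ => U 9 ψ) := by
      intro t ht
      rw [mem_filter] at ht
      obtain ⟨ht1, d, ψ₀, hd, ht2⟩ := ht
      obtain ⟨q, ψ, M, N, hq1, hq2, hN, hMN, hb⟩ := (hBad _).1 ht2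
      have h4 : t ∈ U d ψ₀ := by
        rw [hU, mem_biUnion]
        refine ⟨q, ?_, ?_⟩
        · rw [mem_Icc, hQ]
          exact ⟨hq1, Nat.le_floor hq2⟩
        · rw [mem_biUnion]
          refine ⟨ψ, @mem_univ _ (hfin q) ψ, ?_⟩
          rw [hF, mem_filter, hh]
          refine ⟨ht1, M, N, ?_, ?_, ?_⟩
          · rw [hR]
            exact Nat.le_floor hMN
          · rw [hN₀]
            exact Nat.le_floor hN
          · refine lt_of_le_of_lt hg3 (lt_of_lt_of_eq hb ?_)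
            congr 1
            apply sum_congr rfl
            intro n _
            push_cast
            ring
      rw [mem_union, mem_biUnion, mem_biUnion]
      rcases hd with hd | hd
      · subst hd
        left
        exact ⟨ψ₀, mem_univ _, h4⟩
      · subst hd
        right
        exact ⟨ψ₀, mem_univ _, h4⟩
    have h4 := (card_le_card h3).trans ((card_union_le _ _).trans (Nat.add_le_add card_biUnion_le card_biUnion_le))
    have h5 : (((∑ ψ : DirichletCharacter ℂ 1, (U 1 ψ).card + ∑ ψ : DirichletCharacter ℂ 9, (U 9 ψ).card : ℕ)) : ℝ) ≤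
        K * (X ^ (2 * τ) * E) := by
      push_cast
      have h6 : ∑ ψ : DirichletCharacter ℂ 1, ((U 1 ψ).card : ℝ) ≤
          Fintype.card (DirichletCharacter ℂ 1) * (X ^ (2 * τ) * E) := by
        refine (sum_le_sum fun ψ _ => hUE 1 ψ).trans ?_
        rw [sum_const, card_univ, nsmul_eq_mul]
      have h7 : ∑ ψ : DirichletCharacter ℂ 9, ((U 9 ψ).card : ℝ) ≤
          Fintype.card (DirichletCharacter ℂ 9) * (X ^ (2 * τ) * E) := by
        refine (sum_le_sum fun ψ _ => hUE 9 ψ).trans ?_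
        rw [sum_const, card_univ, nsmul_eq_mul]
      rw [hK]
      push_cast
      rw [add_mul]
      exact add_le_add h6 h7
    exact le_trans (by exact_mod_cast h4) h5
  have hest : X ^ (2 * τ) * E ≤ 5 * 4 ^ (k + 1) * C₀ * (P / X ^ c) := by
    rw [hE]
    exact est hθ hη0 hη hC₀ hX hRX hNX hXP hg2 hh2
  have hK0 : (0 : ℝ) ≤ K := Nat.cast_nonneg _
  have hq : 0 ≤ (P : ℝ) / X ^ c := by positivity
  have h8 : (K : ℝ) * (X ^ (2 * τ) * E) ≤ K * (5 * 4 ^ (k + 1) * C₀ * (P / X ^ c)) :=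
    mul_le_mul_of_nonneg_left hest hK0
  have h9 : C * P / X ^ c = 6 * (P / X ^ c) + 7 * (K * (5 * 4 ^ (k + 1) * C₀ * (P / X ^ c))) := by
    rw [hC]
    ring
  rw [h9]
  have h10 := hcard.trans h8
  linarith

end

end Pool.Agent.Q129.CC.Fn3
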