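import Pool.Agent.Q152.CC.Stm2

set_option autoImplicit false

/-!
# Project CC (helper152), statement GAU: the Gauss sums of the cubic symbol

`RT T` is the ring of the Eisenstein integers modulo `T`.
-/

namespace Pool.Agent.Q129.CC

open Finset Pool.Agent.Y692.QS Pool.Agent.Q152.CC

noncomputable section

/-- the Eisenstein integers modulo `T` -/
abbrev RT (T : ℕ) := QuadraticAlgebra (ZMod T) (-1) (-1)

instance finRT (T : ℕ) [NeZero T] : Fintype (RT T) :=
  Fintype.ofEquiv _ (QuadraticAlgebra.equivProd (-1 : ZMod T) (-1)).symm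

instance decRT (T : ℕ) : DecidableEq (RT T) := Classical.decEq _

/-- reduction modulo `T` -/
def red (T : ℕ) (α : Ei) : RT T := ⟨(α.re : ZMod T), (α.im : ZMod T)⟩

theorem red_add (T : ℕ) (α β : Ei) : red T (α + β) = red T α + red T β := by
  ext <;> simp [red]

theorem red_mul (T : ℕ) (α β : Ei) : red T (α * β) = red T α * red T β := by
  ext <;> simp [red]

theorem red_one (T : ℕ) : red T 1 = 1 := by
  ext
  · simp [red, QuadraticAlgebra.re_one]
  · simp [red, QuadraticAlgebra.im_one]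

theorem re_three (R : Type) [CommRing R] (a b : R) : (3 : QuadraticAlgebra R a b).re = 3 :=
  QuadraticAlgebra.re_ofNat 3

theorem im_three (R : Type) [CommRing R] (a b : R) : (3 : QuadraticAlgebra R a b).im = 0 :=
  QuadraticAlgebra.im_ofNat 3

theorem red_three (T : ℕ) : red T 3 = 3 := by
  ext
  · rw [re_three, red]
    simp only [re_three]
    norm_num
  · rw [im_three, red]
    simp only [im_three]
    norm_num

theorem red_int (T : ℕ) (n : ℤ) : red T (n : Ei) = ((n : ZMod T) : ZMod T) • (1 : RT T) := by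
  ext
  · simp [red, QuadraticAlgebra.re_one]
  · simp [red, QuadraticAlgebra.im_one]

theorem card_RT (T : ℕ) [NeZero T] : Fintype.card (RT T) = T ^ 2 := by
  rw [Fintype.card_congr (QuadraticAlgebra.equivProd (-1 : ZMod T) (-1)), Fintype.card_prod,
    ZMod.card]
  ring

section fourier

variable {T : ℕ} [NeZero T]

/-- the standard character -/
abbrev ps (T : ℕ) [NeZero T] : AddChar (ZMod T) ℂ := ZMod.stdAddChar

/-- the Fourier transform -/
def ft (F : RT T → ℂ) (v : RT T) : ℂ := ∑ z, F z * ps T (-(v * z).im)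

/-- `v ↦ (v y).im` -/
def fy (y : RT T) : RT T →+ ZMod T where
  toFun v := (v * y).im
  map_zero' := by simp
  map_add' a b := by rw [add_mul]; rfl

theorem sum_ps (y : RT T) : ∑ v : RT T, ps T ((v * y).im) = if y = 0 then ((T : ℂ) ^ 2) else 0 := by
  have h := AddChar.sum_eq_ite ((ps T).compAddMonoidHom (fy y))
  have h2 : ((ps T).compAddMonoidHom (fy y) = 0) ↔ y = 0 := by
    constructor
    · intro h0
      have h1 : ∀ v : RT T, (v * y).im = 0 := by
        intro v
        have h3 : ps T ((v * y).im) = 1 := by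
          have := congrArg (fun χ : AddChar (RT T) ℂ => χ v) h0
          simpa [fy] using this
        have h4 : ps T ((v * y).im) = ps T 0 := by rw [h3, AddChar.map_zero_eq_one]
        exact ZMod.injective_stdAddChar h4
      have ha := h1 1
      have hb := h1 ⟨0, 1⟩
      rw [one_mul] at ha
      simp [ha] at hb
      ext
      · simpa using hb
      · simpa using ha
    · rintro rfl
      ext v
      simp [fy]
  by_cases hy : y = 0
  · rw [if_pos hy]
    rw [if_pos (h2.2 hy), card_RT] at h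
    push_cast at h
    exact h
  · rw [if_neg hy]
    rw [if_neg (fun h3 => hy (h2.1 h3))] at h
    exact h

theorem parseval (F : RT T → ℂ) :
    ∑ v : RT T, ‖ft F v‖ ^ 2 = (T : ℝ) ^ 2 * ∑ z : RT T, ‖F z‖ ^ 2 := by
  have key : ∑ v : RT T, ft F v * (starRingEnd ℂ) (ft F v) =
      (T : ℂ) ^ 2 * ∑ z : RT T, F z * (starRingEnd ℂ) (F z) := by
    have h1 : ∀ v : RT T, ft F v * (starRingEnd ℂ) (ft F v) =
        ∑ z : RT T, ∑ z' : RT T, F z * (starRingEnd ℂ) (F z') * ps T ((v * (z' - z)).im) := by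
      intro v
      unfold ft
      rw [map_sum, Finset.sum_mul_sum]
      refine sum_congr rfl fun z _ => sum_congr rfl fun z' _ => ?_
      rw [map_mul, ← AddChar.map_neg_eq_conj, neg_neg]
      have : (v * (z' - z)).im = -(v * z).im + (v * z').im := by
        rw [mul_sub, QuadraticAlgebra.im_sub]; ring
      rw [this, AddChar.map_add_eq_mul]
      ring
    rw [sum_congr rfl fun v _ => h1 v, sum_comm, Finset.mul_sum]
    refine sum_congr rfl fun z _ => ?_
    rw [sum_comm]
    have h2 : ∀ z' : RT T, ∑ v : RT T, F z * (starRingEnd ℂ) (F z') * ps T ((v * (z' - z)).im) =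
        if z' = z then (T : ℂ) ^ 2 * (F z * (starRingEnd ℂ) (F z)) else 0 := by
      intro z'
      rw [← Finset.mul_sum, sum_ps]
      by_cases hz : z' = z
      · rw [if_pos (sub_eq_zero.2 hz), if_pos hz, hz]; ring
      · rw [if_neg (fun h => hz (sub_eq_zero.1 h)), if_neg hz, mul_zero]
    rw [sum_congr rfl fun z' _ => h2 z', Finset.sum_ite_eq' univ z]
    simp
  have h3 : ∀ x : ℂ, x * (starRingEnd ℂ) x = ((‖x‖ ^ 2 : ℝ) : ℂ) := by
    intro x
    rw [Complex.mul_conj, Complex.normSq_eq_norm_sq]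
  simp only [h3] at key
  exact_mod_cast key

theorem norm_ps (a : ZMod T) : ‖ps T a‖ = 1 := AddChar.norm_apply _ _

theorem norm_ft_mul (F : RT T → ℂ) (b u : RT T) (hb : IsUnit (1 + 3 * b))
    (h : ∀ z, F ((1 + 3 * b) * z + b) = F b * F z) :
    ‖ft F u‖ = ‖F b‖ * ‖ft F (u * (1 + 3 * b))‖ := by
  have key : ft F u = F b * ps T (-(u * b).im) * ft F (u * (1 + 3 * b)) := by
    unfold ft
    rw [← Equiv.sum_comp ((Units.mulLeft hb.unit).trans (Equiv.addRight b))
      (fun z => F z * ps T (-(u * z).im)), Finset.mul_sum]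
    refine sum_congr rfl fun z _ => ?_
    have he : ((Units.mulLeft hb.unit).trans (Equiv.addRight b)) z = (1 + 3 * b) * z + b := by
      simp
    rw [he, h z]
    have h2 : -(u * ((1 + 3 * b) * z + b)).im = -(u * b).im + -(u * (1 + 3 * b) * z).im := by
      rw [mul_add, QuadraticAlgebra.im_add, ← mul_assoc]; ring
    rw [h2, AddChar.map_add_eq_mul]
    ring
  rw [key, norm_mul, norm_mul, norm_ps, mul_one]

theorem fiber_le (u v : RT T) :
    (univ.filter fun b : RT T => u * (1 + 3 * b) = v).card ≤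
      (univ.filter fun y : RT T => 3 * (u * y) = 0).card := by
  rcases (univ.filter fun b : RT T => u * (1 + 3 * b) = v).eq_empty_or_nonempty with h | ⟨b0, hb0⟩
  · rw [h]; simp
  · rw [mem_filter] at hb0
    refine Finset.card_le_card_of_injOn (fun b => b - b0) ?_ ?_
    · intro b hb
      simp only [coe_filter, mem_univ, true_and, Set.mem_ofPred_eq] at hb ⊢
      have := hb.trans hb0.2.symm
      linear_combination this
    · intro b _ b' _ h
      simpa using h

theorem three_le (T : ℕ) [NeZero T] (h3 : 3 ∣ T) :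
    (univ.filter fun x : ZMod T => 3 * x = 0).card ≤ 3 := by
  obtain ⟨m, hm⟩ := h3
  have hm0 : 0 < m := by
    rcases Nat.eq_zero_or_pos m with h | h
    · exact absurd (by rw [hm, h, mul_zero]) (NeZero.ne T)
    · exact h
  have hsub : (univ.filter fun x : ZMod T => 3 * x = 0) ⊆
      (range 3).image (fun k => ((m * k : ℕ) : ZMod T)) := by
    intro x hx
    rw [mem_filter] at hx
    have h1 : ((3 * x.val : ℕ) : ZMod T) = 0 := by
      push_cast
      rw [ZMod.natCast_zmod_val]
      exact hx.2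
    rw [ZMod.natCast_eq_zero_iff] at h1
    have h1' : 3 * m ∣ 3 * x.val := hm ▸ h1
    have h2 : m ∣ x.val := Nat.dvd_of_mul_dvd_mul_left (by norm_num) h1'
    obtain ⟨k, hk⟩ := h2
    have h4 : x.val < T := ZMod.val_lt x
    have h4' : m * k < 3 * m := by rw [← hk, ← hm]; exact h4
    have h5 : k < 3 := by
      by_contra h
      have : m * 3 ≤ m * k := Nat.mul_le_mul_left m (not_lt.1 h)
      omega
    rw [mem_image]
    refine ⟨k, mem_range.2 h5, ?_⟩
    rw [← hk, ZMod.natCast_zmod_val]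
  calc _ ≤ ((range 3).image (fun k => ((m * k : ℕ) : ZMod T))).card := card_le_card hsub
    _ ≤ (range 3).card := card_image_le
    _ = 3 := card_range 3

theorem nine_le (h3 : 3 ∣ T) : (univ.filter fun y : RT T => 3 * y = 0).card ≤ 9 := by
  have h1 : (univ.filter fun y : RT T => 3 * y = 0).card ≤
      ((univ.filter fun x : ZMod T => 3 * x = 0) ×ˢ
        (univ.filter fun x : ZMod T => 3 * x = 0)).card := by
    refine Finset.card_le_card_of_injOn (fun y => (y.re, y.im)) ?_ ?_
    · intro y hy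
      simp only [coe_filter, mem_univ, true_and, Set.mem_ofPred_eq] at hy
      simp only [coe_product, coe_filter, mem_univ, true_and, Set.mem_prod, Set.mem_ofPred_eq]
      constructor
      · have := congrArg QuadraticAlgebra.re hy
        rw [QuadraticAlgebra.re_mul, re_three, im_three] at this
        simpa using this
      · have := congrArg QuadraticAlgebra.im hy
        rw [QuadraticAlgebra.im_mul, re_three, im_three] at this
        simpa using this
    · intro y _ y' _ h
      simp only [Prod.mk.injEq] at h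
      exact QuadraticAlgebra.ext h.1 h.2
  rw [card_product] at h1
  have := three_le T h3
  nlinarith

theorem ker_le (h3 : 3 ∣ T) (u : RT T) :
    (univ.filter fun y : RT T => 3 * (u * y) = 0).card ≤
      9 * (univ.filter fun y : RT T => u * y = 0).card := by
  refine Finset.card_le_mul_card_image_of_maps_to (f := fun y : RT T => 3 * y) ?_ 9 ?_
  · intro y hy
    simp only [mem_filter, mem_univ, true_and] at hy ⊢
    linear_combination hy
  · intro c _
    refine le_trans ?_ (nine_le h3)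
    rcases (({a ∈ (univ.filter fun y : RT T => 3 * (u * y) = 0) | 3 * a = c})).eq_empty_or_nonempty
      with h | ⟨b0, hb0⟩
    · rw [h]; simp
    · simp only [mem_filter, mem_univ, true_and] at hb0
      refine Finset.card_le_card_of_injOn (fun b => b - b0) ?_ ?_
      · intro b hb
        simp only [coe_filter, mem_filter, mem_univ, true_and, Set.mem_ofPred_eq] at hb ⊢
        linear_combination hb.2 - hb0.2
      · intro b _ b' _ h
        simpa using h

/-- the abstract bound -/
theorem ft_bound (h3 : 3 ∣ T) (F : RT T → ℂ) (h1 : ∀ z, ‖F z‖ ≤ 1)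
    (hu : ∀ b, F b ≠ 0 → IsUnit (1 + 3 * b))
    (hm : ∀ b z, F b ≠ 0 → F ((1 + 3 * b) * z + b) = F b * F z) (u : RT T) :
    ‖ft F u‖ ^ 2 ≤ 9 * (T : ℝ) ^ 2 * (univ.filter fun y : RT T => u * y = 0).card := by
  set S : ℝ := ∑ b : RT T, ‖F b‖ ^ 2 with hS
  set N : ℕ := (univ.filter fun y : RT T => u * y = 0).card with hN
  have hS0 : 0 ≤ S := sum_nonneg fun b _ => by positivity
  have e1 : S * ‖ft F u‖ ^ 2 ≤ ∑ b : RT T, ‖ft F (u * (1 + 3 * b))‖ ^ 2 := by
    rw [hS, sum_mul]
    refine sum_le_sum fun b _ => ?_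
    by_cases hb : F b = 0
    · rw [hb]; simp
    · have h5 := norm_ft_mul F b u (hu b hb) (fun z => hm b z hb)
      have h6 : ‖F b‖ ^ 2 ≤ 1 := by
        have := h1 b
        have h0 := norm_nonneg (F b)
        nlinarith
      rw [h5, mul_pow]
      have h7 : 0 ≤ ‖ft F (u * (1 + 3 * b))‖ ^ 2 := by positivity
      have h8 : 0 ≤ ‖F b‖ ^ 2 := by positivity
      have h9 : ‖F b‖ ^ 2 * ‖F b‖ ^ 2 ≤ 1 := by nlinarith
      nlinarith
  have e2 : ∑ b : RT T, ‖ft F (u * (1 + 3 * b))‖ ^ 2 ≤
      (9 * N : ℕ) * ∑ v : RT T, ‖ft F v‖ ^ 2 := by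
    rw [← Finset.sum_fiberwise (s := (univ : Finset (RT T))) (g := fun b : RT T => u * (1 + 3 * b))
      (f := fun b => ‖ft F (u * (1 + 3 * b))‖ ^ 2), Finset.mul_sum]
    refine sum_le_sum fun v _ => ?_
    have h5 : ∑ b ∈ univ.filter (fun b : RT T => u * (1 + 3 * b) = v),
        ‖ft F (u * (1 + 3 * b))‖ ^ 2 =
        ((univ.filter fun b : RT T => u * (1 + 3 * b) = v).card : ℝ) * ‖ft F v‖ ^ 2 := by
      rw [sum_congr rfl (g := fun _ => ‖ft F v‖ ^ 2) (fun b hb => by rw [(mem_filter.1 hb).2]),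
        sum_const, nsmul_eq_mul]
    rw [h5]
    have h6 : (univ.filter fun b : RT T => u * (1 + 3 * b) = v).card ≤ 9 * N :=
      (fiber_le u v).trans (ker_le h3 u)
    have h7 : ((univ.filter fun b : RT T => u * (1 + 3 * b) = v).card : ℝ) ≤ ((9 * N : ℕ) : ℝ) := by
      exact_mod_cast h6
    exact mul_le_mul_of_nonneg_right h7 (by positivity)
  rw [parseval] at e2
  rcases hS0.eq_or_lt with h | h
  · -- all values are zero
    have hz : ∀ b : RT T, F b = 0 := by
      intro b
      have h5 := (sum_eq_zero_iff_of_nonneg (fun b _ => by positivity)).1 (hS.symm.trans h.symm) b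
        (mem_univ b)
      simpa using h5
    have : ft F u = 0 := by
      unfold ft
      exact sum_eq_zero fun z _ => by rw [hz z, zero_mul]
    rw [this]
    simp
    positivity
  · have h5 : S * ‖ft F u‖ ^ 2 ≤ S * (9 * (T : ℝ) ^ 2 * N) := by
      refine (e1.trans e2).trans (le_of_eq ?_)
      rw [← hS]
      push_cast
      ring
    exact le_of_mul_le_mul_left h5 h

theorem sum_val (h : ℕ → ℂ) : ∑ a : ZMod T, h a.val = ∑ x ∈ range T, h x := by
  refine Finset.sum_nbij' (fun a => a.val) (fun x => (x : ZMod T)) ?_ ?_ ?_ ?_ ?_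
  · intro a _
    exact mem_range.2 (ZMod.val_lt a)
  · intro x _
    exact mem_univ _
  · intro a _
    exact ZMod.natCast_zmod_val a
  · intro x hx
    exact ZMod.val_cast_of_lt (mem_range.1 hx)
  · intro a _
    rfl

theorem sum_range2 (H : ℕ → ℕ → ℂ) :
    ∑ x ∈ range T, ∑ y ∈ range T, H x y = ∑ z : RT T, H z.re.val z.im.val := by
  rw [← Equiv.sum_comp (QuadraticAlgebra.equivProd (-1 : ZMod T) (-1)).symm
    (fun z : RT T => H z.re.val z.im.val), Fintype.sum_prod_type]
  rw [← sum_val (T := T) (fun x => ∑ y ∈ range T, H x y)]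
  refine sum_congr rfl fun a _ => ?_
  rw [← sum_val (T := T) (fun y => H a.val y)]
  rfl

theorem eq_red (z : RT T) : z = red T ⟨(z.re.val : ℤ), (z.im.val : ℤ)⟩ := by
  ext <;> simp [red]

omit [NeZero T] in
theorem red_eq_zero {α : Ei} : red T α = 0 ↔ (((T : ℕ) : ℤ) : Ei) ∣ α := by
  rw [int_dvd, QuadraticAlgebra.ext_iff]
  simp only [red, QuadraticAlgebra.re_zero, QuadraticAlgebra.im_zero]
  rw [ZMod.intCast_zmod_eq_zero_iff_dvd, ZMod.intCast_zmod_eq_zero_iff_dvd]

theorem an_ge (i j : ℤ) : (univ.filter fun y : RT T => red T (uu i j) * y = 0).card ≤ an T i j := by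
  classical
  unfold an
  refine Finset.card_le_card_of_injOn (fun y => (y.re.val, y.im.val)) ?_ ?_
  · intro y hy
    simp only [coe_filter, mem_univ, true_and, Set.mem_ofPred_eq] at hy
    simp only [coe_filter, Set.mem_ofPred_eq, mem_product, mem_range]
    refine ⟨⟨ZMod.val_lt _, ZMod.val_lt _⟩, ?_⟩
    rw [← red_eq_zero, red_mul, ← eq_red]
    exact hy
  · intro y _ y' _ h
    simp only [Prod.mk.injEq] at h
    exact QuadraticAlgebra.ext (ZMod.val_injective T h.1) (ZMod.val_injective T h.2)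

end fourier

theorem al_eq (x y : ℤ) : al x y = 1 + 3 * (⟨x, y⟩ : Ei) := by
  ext
  · rw [QuadraticAlgebra.re_add, mul_re, re_three, im_three, QuadraticAlgebra.re_one]
    simp [al]
  · rw [QuadraticAlgebra.im_add, mul_im, re_three, im_three, QuadraticAlgebra.im_one]
    simp [al]

theorem al_dvd (x y : ℤ) : (3 : Ei) ∣ al x y - 1 :=
  ⟨⟨x, y⟩, by rw [al_eq]; ring⟩

theorem nr_al (x y : ℤ) : nr (al x y) = 1 + 3 * (2 * x + 3 * x ^ 2 - y - 3 * x * y + 3 * y ^ 2) := by
  unfold nr al
  ring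

theorem coprime_three (x y : ℤ) : IsCoprime (nr (al x y)) 3 :=
  ⟨1, -(2 * x + 3 * x ^ 2 - y - 3 * x * y + 3 * y ^ 2), by rw [nr_al]; ring⟩

section conn

variable {A B : ℕ}

theorem G_per (per : S_PER) (hA : 1 ≤ A) (hB : 1 ≤ B) {x y x' y' : ℤ}
    (hx : ((3 * A * B : ℕ) : ℤ) ∣ x - x') (hy : ((3 * A * B : ℕ) : ℤ) ∣ y - y') :
    G A B x y = G A B x' y' := by
  have key : ∀ n : ℤ, 3 * n ∣ ((3 * A * B : ℕ) : ℤ) → ((9 * n : ℤ) : Ei) ∣ al x y - al x' y' := by
    intro n hn
    rw [int_dvd]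
    obtain ⟨c, hc⟩ := hn.trans hx
    obtain ⟨d, hd⟩ := hn.trans hy
    constructor
    · refine ⟨c, ?_⟩
      rw [QuadraticAlgebra.re_sub]
      simp only [al]
      linear_combination 3 * hc
    · refine ⟨d, ?_⟩
      rw [QuadraticAlgebra.im_sub]
      simp only [al]
      linear_combination 3 * hd
  have h1 : xi (al x y) A = xi (al x' y') A :=
    per A _ _ hA (al_dvd x y) (al_dvd x' y') (key A ⟨B, by push_cast; ring⟩)
  have h2 : xi (al x y) B = xi (al x' y') B :=
    per B _ _ hB (al_dvd x y) (al_dvd x' y') (key B ⟨A, by push_cast; ring⟩)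
  unfold G
  rw [h1, h2]

/-- the function `G` on the ring modulo `T` -/
def Fz (A B : ℕ) (z : RT (3 * A * B)) : ℂ := G A B (z.re.val : ℤ) (z.im.val : ℤ)

variable [NeZero (3 * A * B)]

theorem Fz_red (per : S_PER) (hA : 1 ≤ A) (hB : 1 ≤ B) (ζ : Ei) :
    Fz A B (red (3 * A * B) ζ) = G A B ζ.re ζ.im := by
  refine G_per per hA hB ?_ ?_
  · rw [← ZMod.intCast_zmod_eq_zero_iff_dvd]
    simp [red]
  · rw [← ZMod.intCast_zmod_eq_zero_iff_dvd]
    simp [red]

omit [NeZero (3 * A * B)] in
theorem Fz_le (xmu : S_XMU) (hA : 1 ≤ A) (hB : 1 ≤ B) (z : RT (3 * A * B)) : ‖Fz A B z‖ ≤ 1 := by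
  unfold Fz G
  rw [norm_mul, norm_star]
  have h1 := xmu.2.2 (al (z.re.val : ℤ) (z.im.val : ℤ)) A hA (al_dvd _ _)
  have h2 := xmu.2.2 (al (z.re.val : ℤ) (z.im.val : ℤ)) B hB (al_dvd _ _)
  have h3 := norm_nonneg (xi (al (z.re.val : ℤ) (z.im.val : ℤ)) A)
  have h4 := norm_nonneg (xi (al (z.re.val : ℤ) (z.im.val : ℤ)) B)
  nlinarith

theorem xi_ne {α : Ei} {n : ℕ} (h : xi α n ≠ 0) : IsCoprime (nr α) (n : ℤ) := by
  unfold xi at h
  split_ifs at h with h1
  · exact h1
  · exact absurd rfl h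

theorem Fz_unit (b : RT (3 * A * B)) (hb : Fz A B b ≠ 0) : IsUnit (1 + 3 * b) := by
  set α : Ei := al (b.re.val : ℤ) (b.im.val : ℤ) with hα
  have hr : red (3 * A * B) α = 1 + 3 * b := by
    rw [hα, al_eq, red_add, red_mul, red_one, red_three, ← eq_red]
  unfold Fz G at hb
  have h1 := xi_ne (left_ne_zero_of_mul hb)
  have h2 : xi α B ≠ 0 := by
    intro h
    apply right_ne_zero_of_mul hb
    rw [← hα, h, star_zero]
  have h3 := xi_ne h2
  have h4 : IsCoprime (nr α) ((3 * A * B : ℕ) : ℤ) := by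
    push_cast
    exact IsCoprime.mul_right (IsCoprime.mul_right (coprime_three _ _) h1) h3
  obtain ⟨p, q, hpq⟩ := h4
  have h5 : red (3 * A * B) α * red (3 * A * B) (star α * (p : Ei)) = 1 := by
    rw [← red_mul, ← mul_assoc, mul_star, ← sub_eq_zero]
    have h6 : red (3 * A * B) (((nr α : ℤ) : Ei) * (p : Ei)) - 1 =
        red (3 * A * B) (((nr α : ℤ) : Ei) * (p : Ei) + (-1)) := by
      rw [red_add, sub_eq_add_neg]
      congr 1
      ext
      · simp [red, QuadraticAlgebra.re_one]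
      · simp [red, QuadraticAlgebra.im_one]
    rw [h6, red_eq_zero]
    refine ⟨-(q : Ei), ?_⟩
    have h7 : ((p * nr α + q * ((3 * A * B : ℕ) : ℤ) : ℤ) : Ei) = ((1 : ℤ) : Ei) := by rw [hpq]
    rw [Int.cast_add, Int.cast_mul, Int.cast_mul, Int.cast_one] at h7
    linear_combination h7
  rw [← hr]
  exact IsUnit.of_mul_eq_one _ h5

theorem Fz_mul (per : S_PER) (xmu : S_XMU) (hA : 1 ≤ A) (hB : 1 ≤ B) (b z : RT (3 * A * B)) :
    Fz A B ((1 + 3 * b) * z + b) = Fz A B b * Fz A B z := by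
  set β : Ei := ⟨(b.re.val : ℤ), (b.im.val : ℤ)⟩ with hβ
  set ζ : Ei := ⟨(z.re.val : ℤ), (z.im.val : ℤ)⟩ with hζ
  have h1 : (1 + 3 * b) * z + b = red (3 * A * B) ((1 + 3 * β) * ζ + β) := by
    rw [red_add, red_mul, red_add, red_mul, red_one, red_three, hβ, hζ, ← eq_red, ← eq_red]
  rw [h1, Fz_red per hA hB]
  have h2 : al ((1 + 3 * β) * ζ + β).re ((1 + 3 * β) * ζ + β).im =
      al β.re β.im * al ζ.re ζ.im := by
    rw [al_eq, al_eq, al_eq]
    have e : ∀ x : Ei, (⟨x.re, x.im⟩ : Ei) = x := fun x => rfl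
    rw [e, e, e]
    ring
  have h3 : Fz A B b = G A B β.re β.im := rfl
  have h4 : Fz A B z = G A B ζ.re ζ.im := rfl
  rw [h3, h4]
  unfold G
  rw [h2, xmu.2.1 _ _ A hA (al_dvd _ _) (al_dvd _ _), xmu.2.1 _ _ B hB (al_dvd _ _) (al_dvd _ _),
    star_mul']
  ring

theorem Gh_eq (i j : ℤ) :
    Gh A B i j = ft (Fz A B) (red (3 * A * B) (uu i j)) := by
  unfold Gh ft
  rw [sum_range2 (T := 3 * A * B)
    (fun x y => G A B (x : ℤ) (y : ℤ) * ee (-(i * x + j * y) / (3 * A * B : ℕ)))]
  refine sum_congr rfl fun z _ => ?_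
  unfold Fz
  congr 1
  have h1 : -(red (3 * A * B) (uu i j) * z).im =
      ((-(i * (z.re.val : ℤ) + j * (z.im.val : ℤ)) : ℤ) : ZMod (3 * A * B)) := by
    rw [QuadraticAlgebra.im_mul]
    simp only [red, uu]
    push_cast
    rw [ZMod.natCast_zmod_val, ZMod.natCast_zmod_val]
    ring
  rw [h1]
  unfold ps
  rw [ZMod.stdAddChar_coe]
  unfold ee
  congr 1
  push_cast
  ring

end conn

/-- GAU: the Gauss sums of the cubic symbol. -/
theorem gau (per : S_PER) (xmu : S_XMU) : S_GAU := by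
  intro A B hA hB i j
  have : NeZero (3 * A * B) := ⟨by positivity⟩
  rw [Gh_eq]
  refine (ft_bound (Dvd.intro _ (mul_assoc 3 A B).symm) (Fz A B) (Fz_le xmu hA hB)
    (fun b hb => Fz_unit b hb) (fun b z _ => Fz_mul per xmu hA hB b z) _).trans ?_
  have h := an_ge (T := 3 * A * B) i j
  have h2 : ((univ.filter fun y : RT (3 * A * B) => red (3 * A * B) (uu i j) * y = 0).card : ℝ) ≤
      (an (3 * A * B) i j : ℝ) := by exact_mod_cast h
  exact mul_le_mul_of_nonneg_left h2 (by positivity)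

end

end Pool.Agent.Q129.CC
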