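import Pool.Agent.Q62.CC.Stm

/-!
# Job CC-14 (helper129, for project CC of helper62): derivatives of functions of `N2`
-/

set_option autoImplicit false

open Set Filter Topology

namespace Pool.Agent.Q129.CC

open Pool.Agent.Q61.NC (Sp pd)
open Pool.Agent.Q62.CC (N2 S_LAP)

namespace Lap

variable {d : ℕ}

/-- the unit vector -/
noncomputable def E (i : Fin d) : Sp d := EuclideanSpace.single i 1

theorem pd_eq {f : Sp d → ℝ} {L : Sp d →L[ℝ] ℝ} {x : Sp d} (h : HasFDerivAt f L x) (i : Fin d) :
    pd i f x = L (E i) := by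
  rw [pd, h.fderiv, E]

theorem pd_congr {f g : Sp d → ℝ} {x : Sp d} (h : f =ᶠ[𝓝 x] g) (i : Fin d) :
    pd i f x = pd i g x := by
  rw [pd, pd, h.fderiv_eq]

theorem proj_E (a i : Fin d) :
    (EuclideanSpace.proj a : Sp d →L[ℝ] ℝ) (E i) = if i = a then 1 else 0 := by
  simp [E, eq_comm]

theorem hcoord (a : Fin d) (x : Sp d) :
    HasFDerivAt (fun y : Sp d => y a) (EuclideanSpace.proj a : Sp d →L[ℝ] ℝ) x :=
  (EuclideanSpace.proj a : Sp d →L[ℝ] ℝ).hasFDerivAt

/-- the derivative of `N2` -/
noncomputable def dN (j k : Fin d) (x : Sp d) : Sp d →L[ℝ] ℝ :=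
  (2 * x j) • (EuclideanSpace.proj j : Sp d →L[ℝ] ℝ) + (2 * x k) • (EuclideanSpace.proj k : Sp d →L[ℝ] ℝ)

theorem hN2 (j k : Fin d) (x : Sp d) : HasFDerivAt (N2 j k) (dN j k x) x := by
  have h : ∀ a : Fin d, HasFDerivAt (fun y : Sp d => y a ^ 2)
      ((2 * x a) • (EuclideanSpace.proj a : Sp d →L[ℝ] ℝ)) x := by
    intro a
    have h0 : HasDerivAt (fun r : ℝ => r ^ 2) (2 * x a) (x a) := by
      simpa using hasDerivAt_pow 2 (x a)
    exact h0.comp_hasFDerivAt x (hcoord a x)
  exact (h j).add (h k)

theorem dN_E {j k : Fin d} (hjk : j ≠ k) (x : Sp d) (i : Fin d) :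
    dN j k x (E i) = if i = j ∨ i = k then 2 * x i else 0 := by
  simp only [dN, _root_.add_apply, _root_.smul_apply, proj_E, smul_eq_mul]
  by_cases h1 : i = j
  · subst h1
    simp [hjk]
  · by_cases h2 : i = k
    · subst h2
      simp [h1]
    · simp [h1, h2]

theorem cont_N2 (j k : Fin d) : Continuous (N2 j k : Sp d → ℝ) :=
  continuous_iff_continuousAt.2 fun x => (hN2 j k x).continuousAt

theorem sum_two {j k : Fin d} (hjk : j ≠ k) (φ : Fin d → ℝ) :
    ∑ i, (if i = j ∨ i = k then φ i else 0) = φ j + φ k := by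
  have h : ∀ i, (if i = j ∨ i = k then φ i else 0) =
      (if i = j then φ i else 0) + (if i = k then φ i else 0) := by
    intro i
    by_cases h1 : i = j
    · subst h1
      simp [hjk]
    · simp [h1]
  rw [Finset.sum_congr rfl fun i _ => h i, Finset.sum_add_distrib]
  simp

/-- functions of `N2` -/
theorem hg {j k : Fin d} {g : ℝ → ℝ} {c : ℝ} {x : Sp d} (h : HasDerivAt g c (N2 j k x)) :
    HasFDerivAt (fun y => g (N2 j k y)) (c • dN j k x) x := h.comp_hasFDerivAt x (hN2 j k x)

end Lap

open Lap in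
theorem t_LAP : S_LAP := by
  intro d j k N₀ N₁ g g1 g2 hjk hg1 hg2 x hx
  have hopen : ∀ x : Sp d, N2 j k x ∈ Ioo N₀ N₁ → ∀ᶠ y in 𝓝 x, N2 j k y ∈ Ioo N₀ N₁ := fun x hx =>
    (isOpen_Ioo.preimage (cont_N2 j k)).mem_nhds hx
  have A : ∀ x : Sp d, N2 j k x ∈ Ioo N₀ N₁ → ∀ i, pd i (fun y => g (N2 j k y)) x =
      if i = j ∨ i = k then 2 * x i * g1 (N2 j k x) else 0 := by
    intro x hx i
    rw [pd_eq (hg (hg1 _ hx)) i, _root_.smul_apply, dN_E hjk, smul_eq_mul]
    split_ifs
    · ring
    · ring
  have B : ∀ l, l = j ∨ l = k → ∀ x : Sp d, N2 j k x ∈ Ioo N₀ N₁ → ∀ i,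
      pd i (fun y => y l * g (N2 j k y)) x = (if i = l then g (N2 j k x) else 0) +
        if i = j ∨ i = k then x l * (2 * x i * g1 (N2 j k x)) else 0 := by
    intro l _ x hx i
    refine Eq.trans (pd_eq ((hcoord l x).mul (hg (hg1 _ hx))) i) ?_
    simp only [_root_.add_apply, _root_.smul_apply, proj_E, smul_eq_mul,
      dN_E hjk]
    split_ifs <;> ring
  refine ⟨A x hx, ?_, ?_⟩
  · have h : ∀ i, pd i (pd i fun y => g (N2 j k y)) x =
        if i = j ∨ i = k then 2 * g1 (N2 j k x) + 4 * x i ^ 2 * g2 (N2 j k x) else 0 := by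
      intro i
      have e : (pd i fun y => g (N2 j k y)) =ᶠ[𝓝 x]
          fun y => if i = j ∨ i = k then 2 * y i * g1 (N2 j k y) else 0 := by
        filter_upwards [hopen x hx] with y hy
        exact A y hy i
      rw [pd_congr e i]
      by_cases hi : i = j ∨ i = k
      · simp only [if_pos hi]
        have h1 := (((hcoord i x).const_mul 2).mul (hg (hg2 _ hx)))
        have h2 := pd_eq h1 i
        refine Eq.trans h2 ?_
        simp only [_root_.add_apply, _root_.smul_apply, proj_E,
          smul_eq_mul, dN_E hjk, if_pos hi, if_true]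
        ring
      · simp only [if_neg hi]
        rw [pd_eq (hasFDerivAt_const (0 : ℝ) x) i]
        simp
    rw [Finset.sum_congr rfl fun i _ => h i, sum_two hjk]
    unfold N2
    ring
  · intro l hl
    refine ⟨B l hl x hx, ?_⟩
    have h : ∀ i, pd i (pd i fun y => y l * g (N2 j k y)) x =
        if i = j ∨ i = k then (if i = l then 4 * x l * g1 (N2 j k x) else 0) +
          2 * x l * g1 (N2 j k x) + 4 * x l * x i ^ 2 * g2 (N2 j k x) else 0 := by
      intro i
      have e : (pd i fun y => y l * g (N2 j k y)) =ᶠ[𝓝 x]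
          fun y => (if i = l then g (N2 j k y) else 0) +
            if i = j ∨ i = k then y l * (2 * y i * g1 (N2 j k y)) else 0 := by
        filter_upwards [hopen x hx] with y hy
        exact B l hl y hy i
      rw [pd_congr e i]
      by_cases hi : i = j ∨ i = k
      · simp only [if_pos hi]
        have h1 := (hcoord l x).mul (((hcoord i x).const_mul 2).mul (hg (hg2 _ hx)))
        by_cases hil : i = l
        · simp only [if_pos hil]
          have h3 := (hg (hg1 _ hx)).add h1
          have h2 := pd_eq h3 i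
          refine Eq.trans h2 ?_
          simp only [_root_.add_apply, _root_.smul_apply, proj_E,
            smul_eq_mul, dN_E hjk, if_pos hi, if_pos hil, if_true]
          subst hil
          simp only [Pi.mul_apply]
          ring
        · simp only [if_neg hil, zero_add]
          have h2 := pd_eq h1 i
          refine Eq.trans h2 ?_
          simp only [_root_.add_apply, _root_.smul_apply, proj_E,
            smul_eq_mul, dN_E hjk, if_pos hi, if_neg hil, if_true]
          simp only [Pi.mul_apply]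
          ring
      · have hil : i ≠ l := by
          rintro rfl
          exact hi hl
        simp only [if_neg hi, if_neg hil, add_zero]
        rw [pd_eq (hasFDerivAt_const (0 : ℝ) x) i]
        simp
    rw [Finset.sum_congr rfl fun i _ => h i, sum_two hjk]
    unfold N2
    rcases hl with rfl | rfl
    · rw [if_pos rfl, if_neg hjk.symm]
      ring
    · rw [if_pos rfl, if_neg hjk]
      ring

end Pool.Agent.Q129.CC
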