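import Pool.Agent.Q62.CC.Stn

/-!
# Job CC-39 (helper129, for project CC of helper62): regularity of the angular velocity
-/

set_option autoImplicit false

open Set Filter Topology
open scoped ContDiff

namespace Pool.Agent.Q129.CC

open Pool.Agent.Q61.NC (Sp)
open Pool.Agent.Q62.CC (N2 vel shell S_REG)

namespace Reg

variable {d : ℕ}

/-- the point at distance `√s` from the axis -/
noncomputable def gam (j : Fin d) (s : ℝ) : Sp d := √s • (EuclideanSpace.single j (1 : ℝ) : Sp d)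

theorem gam_apply (j i : Fin d) (s : ℝ) : gam j s i = if i = j then √s else 0 := by
  simp [gam]

theorem N2_gam {j k : Fin d} (hjk : j ≠ k) {s : ℝ} (hs : 0 ≤ s) : N2 j k (gam j s) = s := by
  unfold N2
  rw [gam_apply, gam_apply, if_pos rfl, if_neg hjk.symm, Real.sq_sqrt hs]
  ring

theorem vel_gam {j k : Fin d} (hjk : j ≠ k) (Ω : ℝ → ℝ → ℝ) (A : Fin d → ℝ → ℝ → ℝ) (t : ℝ) {s : ℝ}
    (hs : 0 ≤ s) : vel j k Ω A t (gam j s) k = √s * Ω t s := by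
  unfold vel
  simp only [if_neg hjk.symm, if_true]
  rw [N2_gam hjk hs, gam_apply, if_pos rfl]

theorem cont_gam (j : Fin d) : Continuous (gam j) := by
  unfold gam
  fun_prop

theorem deriv_fst {G : ℝ × ℝ → ℝ} {t s : ℝ} (h : DifferentiableAt ℝ G (t, s)) :
    HasDerivAt (fun r => G (r, s)) (fderiv ℝ G (t, s) (1, 0)) t :=
  h.hasFDerivAt.comp_hasDerivAt t ((hasDerivAt_id t).prodMk (hasDerivAt_const t s))

theorem deriv_snd {G : ℝ × ℝ → ℝ} {t s : ℝ} (h : DifferentiableAt ℝ G (t, s)) :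
    HasDerivAt (fun y => G (t, y)) (fderiv ℝ G (t, s) (0, 1)) s :=
  h.hasFDerivAt.comp_hasDerivAt s ((hasDerivAt_const s t).prodMk (hasDerivAt_id s))

end Reg

open Reg in
theorem t_REG : S_REG := by
  intro d j k a b hjk ha hab N Ω A hN hsub hv
  have ha2 : 0 < a ^ 2 := by positivity
  have hab2 : a ^ 2 < b ^ 2 := by nlinarith
  have hU : IsOpen (gam j ⁻¹' N) := hN.preimage (cont_gam j)
  have hmem : ∀ s ∈ Icc (a ^ 2) (b ^ 2), s ∈ gam j ⁻¹' N := by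
    intro s hs
    refine hsub ?_
    change a ^ 2 ≤ N2 j k (gam j s) ∧ N2 j k (gam j s) ≤ b ^ 2
    rw [N2_gam hjk (ha2.le.trans hs.1)]
    exact hs
  obtain ⟨l₀, u₀, h0, hs0⟩ := mem_nhds_iff_exists_Ioo_subset.1
    (hU.mem_nhds (hmem (a ^ 2) (left_mem_Icc.2 hab2.le)))
  obtain ⟨l₁, u₁, h1, hs1⟩ := mem_nhds_iff_exists_Ioo_subset.1
    (hU.mem_nhds (hmem (b ^ 2) (right_mem_Icc.2 hab2.le)))
  have hN0 : 0 < max l₀ (a ^ 2 / 2) := lt_max_of_lt_right (by positivity)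
  have hN1 : max l₀ (a ^ 2 / 2) < a ^ 2 := max_lt h0.1 (by linarith)
  have hin : ∀ s ∈ Ioo (max l₀ (a ^ 2 / 2)) u₁, s ∈ gam j ⁻¹' N := by
    intro s hs
    rcases le_or_gt (a ^ 2) s with h | h
    · rcases le_or_gt s (b ^ 2) with h' | h'
      · exact hmem s ⟨h, h'⟩
      · exact hs1 ⟨h1.1.trans h', hs.2⟩
    · exact hs0 ⟨(le_max_left _ _).trans_lt hs.1, h.trans h0.2⟩
  have hO : IsOpen (Ioi (0 : ℝ) ×ˢ Ioo (max l₀ (a ^ 2 / 2)) u₁) := isOpen_Ioi.prod isOpen_Ioo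
  have hF : ContDiffOn ℝ ∞ (fun z : ℝ × ℝ => Ω z.1 z.2)
      (Ioi 0 ×ˢ Ioo (max l₀ (a ^ 2 / 2)) u₁) := by
    have hsq : ContDiffOn ℝ ∞ (fun z : ℝ × ℝ => √z.2) (Ioi 0 ×ˢ Ioo (max l₀ (a ^ 2 / 2)) u₁) :=
      contDiffOn_snd.sqrt fun z hz => (hN0.trans hz.2.1).ne'
    have hg : ContDiffOn ℝ ∞ (fun z : ℝ × ℝ => ((z.1, gam j z.2) : ℝ × Sp d))
        (Ioi 0 ×ˢ Ioo (max l₀ (a ^ 2 / 2)) u₁) :=
      contDiffOn_fst.prodMk (hsq.smul contDiffOn_const)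
    have hc := hv.comp hg fun z hz => ⟨hz.1, hin z.2 hz.2⟩
    have hk : ContDiffOn ℝ ∞ (fun z : ℝ × ℝ => vel j k Ω A z.1 (gam j z.2) k)
        (Ioi 0 ×ˢ Ioo (max l₀ (a ^ 2 / 2)) u₁) :=
      (EuclideanSpace.proj k : Sp d →L[ℝ] ℝ).contDiff.comp_contDiffOn hc
    refine (hk.div hsq fun z hz => (Real.sqrt_pos.2 (hN0.trans hz.2.1)).ne').congr ?_
    intro z hz
    have hz2 : 0 < z.2 := hN0.trans hz.2.1
    change Ω z.1 z.2 = vel j k Ω A z.1 (gam j z.2) k / √z.2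
    rw [vel_gam hjk Ω A z.1 hz2.le, mul_div_cancel_left₀ _ (Real.sqrt_pos.2 hz2).ne']
  have hF1 : ContDiffOn ℝ ∞ (fun z : ℝ × ℝ => fderiv ℝ (fun z : ℝ × ℝ => Ω z.1 z.2) z (0, 1))
      (Ioi 0 ×ˢ Ioo (max l₀ (a ^ 2 / 2)) u₁) :=
    (hF.fderiv_of_isOpen hO (by simp)).clm_apply contDiffOn_const
  have hd : ∀ {G : ℝ × ℝ → ℝ}, ContDiffOn ℝ ∞ G (Ioi 0 ×ˢ Ioo (max l₀ (a ^ 2 / 2)) u₁) →
      ∀ t s, 0 < t → s ∈ Ioo (max l₀ (a ^ 2 / 2)) u₁ → DifferentiableAt ℝ G (t, s) := by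
    intro G hG t s ht hs
    have hm : ((t, s) : ℝ × ℝ) ∈ Ioi (0 : ℝ) ×ˢ Ioo (max l₀ (a ^ 2 / 2)) u₁ := ⟨ht, hs⟩
    exact (hG.contDiffAt (hO.mem_nhds hm)).differentiableAt (by simp)
  refine ⟨max l₀ (a ^ 2 / 2), u₁, fun t s => fderiv ℝ (fun z : ℝ × ℝ => Ω z.1 z.2) (t, s) (1, 0),
    fun t s => fderiv ℝ (fun z : ℝ × ℝ => Ω z.1 z.2) (t, s) (0, 1),
    fun t s => fderiv ℝ (fun z : ℝ × ℝ => fderiv ℝ (fun z : ℝ × ℝ => Ω z.1 z.2) z (0, 1)) (t, s)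
      (0, 1), hN0, hN1, h1.2, hF, ?_, ?_, ?_⟩
  · intro t s ht hs
    exact deriv_fst (hd hF t s ht hs)
  · intro t s ht hs
    exact deriv_snd (hd hF t s ht hs)
  · intro t s ht hs
    exact deriv_snd (hd hF1 t s ht hs)

end Pool.Agent.Q129.CC
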